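import Pool.Agent.Lib.helper28.CapC

set_option autoImplicit false

namespace Pool.Agent.Results.MP_4f6fd6_an.No

open Complex MeasureTheory Filter Topology ComplexConjugate Pool.Agent.H28DbrB Pool.Agent.H28Cap
open scoped ENNReal NNReal

/-- A non-extreme `b` of norm one for which the two capacities are not comparable. -/
theorem result : ∃ b : UnitAddCircle → ℂ,
    Measurable b ∧ eLpNorm b ⊤ μ = 1 ∧ (∀ n : ℤ, n < 0 → fourierCoeff b n = 0) ∧
    (∀ᵐ x ∂μ, ‖b x‖ < 1) ∧ Integrable (fun x => Real.log (1 - ‖b x‖)) μ ∧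
    ∀ A : ℝ≥0, ∃ E : Set UnitAddCircle, A * cap b (1 ≤ ·) E < cap b (· = 1) E := by
  obtain ⟨b, hb0, hb1, hb2⟩ := ex_b
  have hc := z_cont
  have hb : Mult b := mult_lim hb0 Q_mult (fun N x => (Q_norm N x).le.trans (h_le x))
    (by filter_upwards [z_ne] with x hx using hb2 x hx)
  have hn : ∀ x, 0 < ‖1 - z x‖ → ‖b x‖ = ‖1 / 2 + 1 / 2 * z x‖ := fun x hx => by
    have := (hb2 x hx).norm
    simp only [Q_norm] at this
    exact tendsto_nhds_unique this tendsto_const_nhds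
  have hq : ∀ x, 0 < ‖1 - z x‖ → ‖1 - z x‖ ^ 2 / 8 ≤ 1 - ‖b x‖ := fun x hx => by
    have a1 := parallelogram_law_with_norm ℂ (1 : ℂ) (z x)
    have a2 : ‖b x‖ = ‖1 + z x‖ / 2 := by
      rw [hn x hx, show 1 / 2 + 1 / 2 * z x = (1 + z x) / 2 by ring, norm_div]; simp
    rw [norm_one, z_norm] at a1
    nlinarith [sq_nonneg (1 - ‖b x‖)]
  have hV : ∀ j x, 0 < ‖1 - z x‖ →
      Tendsto (fun m => V j m x) atTop (𝓝 (conj (B (W j) x) * b x)) := fun j x hx => by
    simp only [V, add_comm (j + 1)]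
    exact ((hb2 x hx).comp (tendsto_add_atTop_nat (j + 1))).const_mul _
  have hb' : ∀ j, Mult fun x => conj (B (W j) x) * b x := fun j =>
    mult_lim ((mult_B (W0 j) (W1 j)).1.cj.mul hb0) (V_mult j) (V_le j)
      (by filter_upwards [z_ne] with x hx using hV j x hx)
  have he : ∀ j x, b x = B (W j) x * (conj (B (W j) x) * b x) := fun j x => by
    rw [← mul_assoc, B_conj (W0 j) (W1 j), one_mul]
  refine ⟨b, hb0.1, ?_, (an_iff b).1 hb.an, ?_, ?_, fun A => ?_⟩
  · rw [eLpNorm_exponent_top]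
    refine le_antisymm (by simpa using eLpNormEssSup_le_of_ae_bound (μ := μ) (ae_of_all _ hb1))
      (le_of_forall_lt_imp_le_of_dense fun r hr => ?_)
    by_contra h
    have h1 : ∀ᵐ x ∂μ, ‖(1 / 2 + 1 / 2 * z x : ℂ)‖ₑ ≤ r := by
      filter_upwards [ae_le_eLpNormEssSup (f := b) (μ := μ), z_ne] with x a1 a2
      rw [← ofReal_norm, ← hn x a2, ofReal_norm]
      exact a1.trans (not_le.1 h).le
    have h2 : IsClosed {x | ‖(1 / 2 + 1 / 2 * z x : ℂ)‖ₑ ≤ r} :=
      isClosed_le (by fun_prop) continuous_const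
    have h3 := h2.closure_subset ((μ.dense_of_ae h1) 0)
    simp only [Set.mem_ofPred_eq, z, fourier_eval_zero] at h3
    norm_num at h3
    exact absurd h3 (not_le.2 hr)
  · filter_upwards [z_ne] with x hx
    linarith [hq x hx, show 0 < ‖1 - z x‖ ^ 2 / 8 by positivity]
  · refine Integrable.mono ((log_int.const_mul 2).sub (integrable_const (Real.log 8)))
      (Real.measurable_log.comp (measurable_const.sub hb0.1.norm)).aestronglyMeasurable ?_
    filter_upwards [z_ne] with x hx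
    have b2 := hq x hx
    have b0 : 0 < ‖1 - z x‖ ^ 2 / 8 := by positivity
    have b1 := Real.log_nonpos (x := 1 - ‖b x‖) (by linarith) (by linarith [norm_nonneg (b x)])
    have b3 := Real.log_le_log b0 b2
    rw [Real.log_div (by positivity) (by positivity), Real.log_pow] at b3
    simp only [Pi.sub_apply, Real.norm_eq_abs]
    push_cast at b3
    rw [abs_of_nonpos b1, abs_of_nonpos (by linarith)]
    linarith
  obtain ⟨i, hi⟩ := exists_nat_gt ((A : ℝ) * 484 * 22400)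
  have s1 : (i : ℝ) ≤ t i := by
    have h1 := t_ge i
    have h2 : i + 1 < 2 ^ (i + 1) := Nat.lt_pow_self (by norm_num)
    exact_mod_cast (by omega : i ≤ t i)
  have s2 := t2 i
  have s3 : (t (i + 1) : ℝ) = t i ^ 4 := by exact_mod_cast t_succ i
  have s4 : (t (i + 1 + 1) : ℝ) = t (i + 1) ^ 4 := by exact_mod_cast t_succ (i + 1)
  have s5 : (16 : ℝ) ≤ t (i + 1) := by
    rw [s3]; exact le_trans (by norm_num) (pow_le_pow_left₀ zero_le_two s2 4)
  have d1 := den_lo (i + 1)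
  have d2 := den_hi (i + 1)
  have w1 : W (i + 1) = 1 - 1 / t (i + 1) := rfl
  obtain ⟨e, he1⟩ : ∃ e : ℝ, e = 1 / t (i + 1) := ⟨_, rfl⟩
  have e0 : 0 < e := by rw [he1]; positivity
  have e1 : e * t (i + 1) = 1 := by rw [he1]; field_simp
  have e2 : e ≤ 1 / 16 := by nlinarith
  rw [← he1] at d1 d2 w1
  have est : ∀ x ∈ Jr e (20 * e),
      ‖conj (B (W (i + 1)) x) * b x - (-1) ^ (i + 1)‖ ≤ 100 * t i * e := fun x ⟨x1, x2⟩ => by
    have x0 := e0.trans_le x1
    refine le_of_tendsto' ((hV (i + 1) x x0).sub_const _).norm fun m => ?_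
    have a1 := V_est (i + 1) m x0 ((-1) ^ (i + 1))
    have a2 := Q_est i x
    have a3 : 8 / ‖1 - z x‖ ≤ 8 / e := div_le_div_of_nonneg_left (by norm_num) e0 x1
    have a4 : 1 / (t (i + 1 + 1) : ℝ) - 1 / t (i + 1 + 1 + m) ≤ e ^ 2 := by
      have a5 : 0 ≤ 1 / (t (i + 1 + 1 + m) : ℝ) := by positivity
      have a6 : 1 / (t (i + 1 + 1) : ℝ) = e ^ 4 := by rw [s4, he1]; field_simp
      have a7 := pow_le_pow_of_le_one e0.le (by linarith) (show 2 ≤ 4 by norm_num)
      linarith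
    have a5 := mul_le_mul_of_nonneg_left a4 (show 0 ≤ 8 / ‖1 - z x‖ by positivity)
    have a6 := mul_le_mul_of_nonneg_right a3 (sq_nonneg e)
    have a7 : 8 / e * e ^ 2 = 8 * e := by field_simp
    nlinarith [mul_le_mul_of_nonneg_right x2 (t_pos i).le, mul_le_mul_of_nonneg_right s2 e0.le]
  refine ⟨{x | ‖1 - z x‖ < 21 * e}, lt_of_lt_of_le
    (b := ENNReal.ofReal (1 / (22400 * t i))) ?_ ?_⟩
  · refine lt_of_le_of_lt (mul_le_mul_right (upper hb (hb' (i + 1)) hb1 (l := 22 * e) (W0 _) (W1 _)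
      (he _) (isOpen_lt (by fun_prop) continuous_const) fun x hx => by
        linarith [d2 x, show ‖1 - z x‖ < 21 * e from hx]) _) ?_
    rw [← ENNReal.ofReal_coe_nnreal, ← ENNReal.ofReal_mul A.coe_nonneg,
      ENNReal.ofReal_lt_ofReal_iff (by positivity)]
    have a1 : (22 * e) ^ 2 / (1 - W (i + 1) ^ 2) ≤ 484 * e := by
      rw [w1, div_le_iff₀ (by nlinarith)]
      nlinarith [mul_nonneg (sq_nonneg e) (show 0 ≤ 1 - e by linarith)]
    refine lt_of_le_of_lt (mul_le_mul_of_nonneg_left a1 A.coe_nonneg) ?_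
    rw [lt_div_iff₀ (by positivity)]
    have a2 : (t i : ℝ) ^ 2 ≤ t i ^ 4 := pow_le_pow_right₀ (by linarith) (by norm_num)
    have a3 := mul_lt_mul_of_pos_right (hi.trans_le s1) (mul_pos e0 (t_pos i))
    rw [s3] at e1
    nlinarith [mul_le_mul_of_nonneg_left a2 e0.le]
  simp only [cap, le_iInf_iff]
  intro f hf0 U _ hU hf1
  obtain ⟨F, F1, F2⟩ := hf0.ex
  have hf : ∀ᵐ x ∂μ, x ∈ U → ‖F x‖ = 1 := by
    filter_upwards [hf1, F2] with x a1 a2 using a2 ▸ a1
  by_cases hN : nb b f = ⊤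
  · rw [hN]; exact le_top
  obtain ⟨α, hα⟩ := emb hb (hb' (i + 1)) (W0 _) (W1 _) (he _) (δ := 100 * t i * e)
    (N := (nb b f).toReal) (by positivity) (c := (-1) ^ (i + 1)) (by simp) F1 fun v hv => by
      rw [← nsq2 hb0 F2 (ae_eq_refl _), ← ENNReal.ofReal_le_iff_le_toReal hN]
      exact le_iSup₂_of_le (f := fun g (_ : InH2 g) => ENNReal.ofReal
        (∫ x, ‖f x + b x * g x‖ ^ 2 ∂μ - ∫ x, ‖g x‖ ^ 2 ∂μ)) v (inH2 hv) le_rfl
  have key : e / 28 / 4 ≤ 2 * (100 * t i * e) * (nb b f).toReal := by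
    by_cases c : 9 * e / 2 ≤ ‖α‖
    · refine le_trans ?_ (hα (Jr e (2 * e)) (Jr_meas _ _)
        (fun x hx => est x ⟨hx.1, by linarith [hx.2]⟩) ?_)
      · linarith [Jr_vol (s := 2 * e) e0 (by linarith)]
      · filter_upwards [hf] with x hx ⟨x1, x2⟩
        have a1 := hx (hU (show ‖1 - z x‖ < 21 * e by linarith))
        have a2 := norm_sub_norm_le (α * k (W (i + 1)) x) (F x)
        have a3 : 3 / 2 ≤ ‖α * k (W (i + 1)) x‖ := by
          rw [norm_mul, k, norm_inv, ← div_eq_mul_inv,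
            le_div_iff₀ (norm_pos_iff.2 (den_ne (W0 _) (W1 _) x))]
          linarith [d2 x]
        rw [norm_sub_rev]
        linarith
    · refine le_trans ?_ (hα (Jr (10 * e) (20 * e)) (Jr_meas _ _)
        (fun x hx => est x ⟨by linarith [hx.1], hx.2⟩) ?_)
      · linarith [Jr_vol (r := 10 * e) (s := 20 * e) (by linarith) (by linarith)]
      · filter_upwards [hf] with x hx ⟨x1, x2⟩
        have a1 := hx (hU (show ‖1 - z x‖ < 21 * e by linarith))
        have a2 := norm_sub_norm_le (F x) (α * k (W (i + 1)) x)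
        have a3 : ‖α * k (W (i + 1)) x‖ ≤ 1 / 2 := by
          rw [norm_mul, k, norm_inv, ← div_eq_mul_inv,
            div_le_iff₀ (norm_pos_iff.2 (den_ne (W0 _) (W1 _) x))]
          linarith [d1 x]
        linarith
  rw [ENNReal.ofReal_le_iff_le_toReal hN, div_le_iff₀ (by positivity)]
  refine le_of_mul_le_mul_left ?_ e0
  nlinarith

end Pool.Agent.Results.MP_4f6fd6_an.No
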